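import Mathlib

/-! A locally compact, densely locally minimal group that is not totally disconnected and
contains a copy of the `p`-adic integers. -/

namespace Pool.Agent.Results.MP_6af4f0_al.Counter

open Set Filter Topology Pointwise

/-- locally minimal groups -/
def LocMin (H : Type) [Group H] [τ : TopologicalSpace H] : Prop :=
  ∃ V : Set H, IsOpen V ∧ 1 ∈ V ∧ ∀ σ : TopologicalSpace H, @IsTopologicalGroup H σ _ →
    @T2Space H σ → τ ≤ σ → V ∈ @nhds H σ 1 → σ = τ

/-- densely locally minimal groups -/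
def DenseLocMin (G : Type) [Group G] [TopologicalSpace G] : Prop :=
  ∀ H : Subgroup G, Dense (H : Set G) → LocMin H

theorem crit {G : Type} [Group G] [TopologicalSpace G] [IsTopologicalGroup G] {C : Set G}
    (hC : IsCompact C) (hCc : IsClosed C) (h1 : C ∈ 𝓝 (1 : G))
    (hN : ∀ N : Subgroup G, N.Normal → (N : Set G) ⊆ C → ∀ x ∈ N, x = 1) : DenseLocMin G := by
  intro H hH
  refine ⟨Subtype.val ⁻¹' interior C, isOpen_interior.preimage continuous_subtype_val,
    mem_interior_iff_mem_nhds.2 h1, fun σ hσ _ hle hV => ?_⟩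
  let F : Filter G := map Subtype.val (@nhds H σ 1)
  have hmul : ∀ W ∈ F, ∃ W' ∈ F, W' * W' ⊆ W := fun W hW => by
    obtain ⟨W', h2, h3⟩ := @exists_nhds_one_split H σ _ _ _ hW
    refine ⟨_, image_mem_map h2, ?_⟩
    rintro _ ⟨_, ⟨a, ha, rfl⟩, _, ⟨b, hb, rfl⟩, rfl⟩
    exact h3 a ha b hb
  have hinv : ∀ W ∈ F, W⁻¹ ∈ F := fun W hW => @inv_mem_nhds_one H σ _ _ _ hW
  have hconj : ∀ g ∈ H, ∀ W ∈ F, (fun x => g * x * g⁻¹) ⁻¹' W ∈ F := fun g hg W hW => by
    have h2 := (@IsTopologicalGroup.continuous_conj H σ _ _ _ ⟨g, hg⟩)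
    have h3 := @Continuous.tendsto' H H σ σ _ h2 1 1 (by simp)
    exact h3 hW
  let N : Subgroup G :=
    { carrier := {x | ∀ W ∈ F, x ∈ closure W}
      one_mem' := fun W hW => subset_closure (@mem_of_mem_nhds H σ 1 _ hW)
      mul_mem' := fun {a b} ha hb W hW => by
        obtain ⟨W', h2, h3⟩ := hmul W hW
        exact map_mem_closure₂ continuous_mul (ha _ h2) (hb _ h2) fun x hx y hy =>
          h3 (mul_mem_mul hx hy)
      inv_mem' := fun {a} ha W hW =>
        map_mem_closure continuous_inv (ha _ (hinv W hW)) fun x hx => hx }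
  have hNn : N.Normal := ⟨fun x hx g W hW => by
    refine closure_minimal (s := (H : Set G)) (t := {g | g * x * g⁻¹ ∈ closure W})
      (fun g hg => ?_) (isClosed_closure.preimage (by fun_prop)) (hH g)
    exact map_mem_closure (f := fun x => g * x * g⁻¹) (by fun_prop) (hx _ (hconj g hg W hW))
      fun y hy => hy⟩
  have hCF : C ∈ F := mem_of_superset hV fun x hx => interior_subset hx
  have h2 : F ≤ 𝓝 1 := hC.le_nhds_of_unique_clusterPt hCF fun y _ hy =>
    hN N hNn (fun x hx => hCc.closure_eq ▸ hx C hCF) y fun W hW =>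
      mem_closure_iff_clusterPt.2 (hy.mono (le_principal_iff.2 hW))
  refine IsTopologicalGroup.ext hσ inferInstance (le_antisymm ?_ (nhds_mono hle))
  rw [nhds_subtype_eq_comap]
  exact map_le_iff_le_comap.1 h2

variable (p : ℕ) [Fact p.Prime]

def A : Type := ℚ_[p] × ℤ × ℝ

noncomputable instance : TopologicalSpace (A p) := inferInstanceAs (TopologicalSpace (ℚ_[p] × ℤ × ℝ))

variable {p}

theorem p0 : (p : ℚ_[p]) ≠ 0 := Nat.cast_ne_zero.2 (Fact.out : p.Prime).ne_zero

noncomputable instance : Group (A p) where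
  mul x y := (x.1 + (p : ℚ_[p]) ^ x.2.1 * y.1, x.2 + y.2)
  one := (0, 0)
  inv x := (-((p : ℚ_[p]) ^ (-x.2.1) * x.1), -x.2)
  mul_assoc x y z := by
    refine Prod.ext ?_ (add_assoc _ _ _)
    change x.1 + _ * y.1 + (p : ℚ_[p]) ^ (x.2.1 + y.2.1) * z.1 = x.1 + _ * (y.1 + _ * z.1)
    rw [zpow_add₀ p0]
    ring
  one_mul x := Prod.ext (by change 0 + (p : ℚ_[p]) ^ (0 : ℤ) * x.1 = x.1; simp) (zero_add _)
  mul_one x := Prod.ext (by change x.1 + _ * 0 = x.1; simp) (add_zero _)
  inv_mul_cancel x := Prod.ext (neg_add_cancel _) (neg_add_cancel _)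

theorem cont : Continuous fun x : A p => (p : ℚ_[p]) ^ x.2.1 :=
  (continuous_of_discreteTopology (f := fun n : ℤ => (p : ℚ_[p]) ^ n)).comp
    (continuous_fst.comp continuous_snd)

instance : IsTopologicalGroup (A p) where
  continuous_mul := ((continuous_fst.comp continuous_fst).add ((cont.comp continuous_fst).mul
    (continuous_fst.comp continuous_snd))).prodMk
      ((continuous_snd.comp continuous_fst).add (continuous_snd.comp continuous_snd))
  continuous_inv := (((continuous_of_discreteTopology (f := fun n : ℤ => (p : ℚ_[p]) ^ (-n))).comp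
    (continuous_fst.comp continuous_snd)).mul continuous_fst).neg.prodMk continuous_snd.neg

theorem dlm : DenseLocMin (A p) := by
  refine crit (C := (Metric.closedBall (0 : ℚ_[p]) 1 ×ˢ ({0} : Set ℤ) ×ˢ Icc (-1 : ℝ) 1))
    ((isCompact_closedBall _ _).prod (isCompact_singleton.prod isCompact_Icc))
    (Metric.isClosed_closedBall.prod (isClosed_singleton.prod isClosed_Icc))
    (prod_mem_nhds (Metric.closedBall_mem_nhds _ one_pos) (prod_mem_nhds
      ((isOpen_discrete _).mem_nhds rfl) (Icc_mem_nhds (by norm_num) one_pos))) ?_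
  rintro N hN h ⟨a, m, t⟩ hx
  obtain rfl : m = 0 := (h hx).2.1
  have h1 : ∀ n : ℕ, ∀ x : A p, (x ^ n).2 = n • x.2 := fun n x => by
    induction n with
    | zero => simp; rfl
    | succ n ih =>
      rw [pow_succ, succ_nsmul, ← ih]
      rfl
  obtain rfl : t = 0 := by
    by_contra ht
    obtain ⟨n, hn⟩ := exists_nat_gt (1 / |t|)
    have h2 := abs_le.2 (h (N.pow_mem hx n)).2.2
    rw [h1] at h2
    rw [div_lt_iff₀ (abs_pos.2 ht)] at hn
    simp [abs_mul] at h2
    linarith
  obtain rfl : a = 0 := by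
    by_contra ha
    have hp : (1 : ℝ) < p := Nat.one_lt_cast.2 (Fact.out : p.Prime).one_lt
    obtain ⟨n, hn⟩ := pow_unbounded_of_one_lt (1 / ‖a‖) hp
    have h2 := (h (hN.conj_mem _ hx ((0, -(n : ℤ), 0) : A p))).1
    change 0 + (p : ℚ_[p]) ^ (-(n : ℤ)) * a + _ * (-(_ * 0)) ∈ _ at h2
    rw [div_lt_iff₀ (norm_pos_iff.2 ha)] at hn
    simp [-zpow_neg] at h2
    linarith
  rfl

noncomputable def emb : Multiplicative ℤ_[p] →* A p where
  toFun z := ((z.toAdd : ℚ_[p]), 0)
  map_one' := rfl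
  map_mul' x y := Prod.ext (by
    change ((x.toAdd + y.toAdd : ℤ_[p]) : ℚ_[p]) = _ + (p : ℚ_[p]) ^ (0 : ℤ) * _
    simp) (add_zero _).symm

theorem notLie {H : Type} [Group H] [TopologicalSpace H] (e : Multiplicative ℤ_[p] ≃ₜ* H) (n : ℕ) :
    IsEmpty (ChartedSpace (EuclideanSpace ℝ (Fin n)) H) := ⟨fun c => by
  have h1 := ChartedSpace.locallyConnectedSpace (EuclideanSpace ℝ (Fin n)) H
  have h0 : TotallyDisconnectedSpace (Multiplicative ℤ_[p]) :=
    inferInstanceAs (TotallyDisconnectedSpace ℤ_[p])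
  have h2 : TotallyDisconnectedSpace H := e.toHomeomorph.totallyDisconnectedSpace
  have h3 : DiscreteTopology H := discreteTopology_iff_isOpen_singleton.2 fun x => by
    rw [← connectedComponent_eq_singleton x]
    exact isOpen_connectedComponent
  have h4 : CompactSpace (Multiplicative ℤ_[p]) := inferInstanceAs (CompactSpace ℤ_[p])
  have h5 : CompactSpace H := e.toHomeomorph.compactSpace
  have h6 : Finite H := finite_of_compact_of_discrete
  have h7 : Finite ℤ_[p] := Finite.of_equiv H e.symm.toEquiv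
  exact not_finite ℤ_[p]⟩

theorem result (p : ℕ) [Fact p.Prime] :
    ∃ (G : Type) (_ : Group G) (_ : TopologicalSpace G), IsTopologicalGroup G ∧ T2Space G ∧
      LocallyCompactSpace G ∧ DenseLocMin G ∧ ¬ TotallyDisconnectedSpace G ∧
        ∃ H : Subgroup G, IsClosed (H : Set G) ∧ Nonempty (Multiplicative ℤ_[p] ≃ₜ* H) ∧
          (∀ x y : H, x * y = y * x) ∧
            ∀ n : ℕ, IsEmpty (ChartedSpace (EuclideanSpace ℝ (Fin n)) H) := by
  have h2 : T2Space (A p) := inferInstanceAs (T2Space (ℚ_[p] × ℤ × ℝ))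
  have hc : Continuous (emb (p := p)) := continuous_subtype_val.prodMk continuous_const
  have hi : Function.Injective (emb (p := p)) := fun x y h => Subtype.ext (congrArg Prod.fst h)
  let e : Multiplicative ℤ_[p] ≃ₜ* (emb (p := p)).range :=
    ⟨MonoidHom.ofInjective hi, hc.subtype_mk _,
      (Continuous.homeoOfEquivCompactToT2 (f := (MonoidHom.ofInjective hi).toEquiv)
        (hc.subtype_mk _)).symm.continuous⟩
  refine ⟨A p, inferInstance, inferInstance, inferInstance, h2,
    inferInstanceAs (LocallyCompactSpace (ℚ_[p] × ℤ × ℝ)), dlm, fun h => ?_, emb.range,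
    (isCompact_range hc).isClosed, ⟨e⟩, fun x y => ?_, notLie e⟩
  · have h1 : Continuous fun t : ℝ => (((0 : ℚ_[p]), (0 : ℤ), t) : A p) :=
      continuous_const.prodMk (continuous_const.prodMk continuous_id)
    have h3 : TotallyDisconnectedSpace (ℚ_[p] × ℤ × ℝ) := h
    have := congrArg (fun x : A p => x.2.2)
      ((isPreconnected_range h1).subsingleton ⟨0, rfl⟩ ⟨1, rfl⟩)
    simp at this
  · obtain ⟨a, rfl⟩ := e.surjective x
    obtain ⟨b, rfl⟩ := e.surjective y
    rw [← map_mul, mul_comm, map_mul]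

end Pool.Agent.Results.MP_6af4f0_al.Counter
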